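import Mathlib
import Pool.Agent.Q105.Irr.Tail

/-!
# `MP_5484c7_co`, Q2: infinitely many `K_n`-irregular graphs for every `n ≥ 3`

A clique `Q` together with special vertices whose neighbourhoods lie in `Q` (a nested sequence and
a finite tail with superincreasing clique contributions), plus one edge between two special
vertices.
-/

namespace Pool.Agent.Results.MP_5484c7_co.CliqueIrregular

open Pool.Agent.Q105.Irr

/-- **Main result (Q2).** For every `n ≥ 3` there are `K_n`-irregular finite graphs with
arbitrarily many vertices. -/
theorem result : ∀ n : ℕ, 3 ≤ n → ∀ N : ℕ, ∃ (V : Type) (_ : Fintype V) (G : SimpleGraph V),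
    N ≤ Fintype.card V ∧ IsIrregular (⊤ : SimpleGraph (Fin n)) G := by
  intro n hn N
  rcases Nat.lt_or_ge 3 n with h4 | h3
  · refine ⟨_, inferInstance, _, ?_, Tail.tail_irregular (k := N + 2) h4 (by omega)⟩
    rw [Fam.card_ext]
    omega
  · have : n = 3 := by omega
    subst this
    refine ⟨_, inferInstance, _, ?_, Tail.tail3_irregular (k := N + 2) (by omega)⟩
    rw [Fam.card_ext]
    omega

end Pool.Agent.Results.MP_5484c7_co.CliqueIrregular
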